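import Mathlib

set_option autoImplicit false

namespace Pool.Agent.H.MP_9bbc25_al

/-- sums of exactly j elements of X -/
inductive Sm (X : ℕ → Prop) : ℕ → ℕ → Prop
  | zero : Sm X 0 0
  | succ {j η ξ : ℕ} : Sm X j η → X ξ → Sm X (j + 1) (η + ξ)

theorem Sm.add {X : ℕ → Prop} {i a j b : ℕ} (h : Sm X i a) (h' : Sm X j b) : Sm X (i + j) (a + b) := by
  induction h' with
  | zero => simpa using h
  | succ _ hx ih => exact (by simpa [add_assoc] using ih.succ hx)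

theorem Sm.zero_iff {X : ℕ → Prop} {η : ℕ} (h : Sm X 0 η) : η = 0 := by
  cases h
  rfl

theorem Sm.one_iff {X : ℕ → Prop} {η : ℕ} (h : Sm X 1 η) : X η := by
  cases h with
  | succ h hx =>
    rw [h.zero_iff, zero_add]
    exact hx

theorem Sm.one {X : ℕ → Prop} {η : ℕ} (h : X η) : Sm X 1 η := by
  simpa using (Sm.zero (X := X)).succ h

/-- combinatorial data from which the numerical semigroup is built -/
structure Data (D : Finset ℕ) where
  d : ℕ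
  n : ℕ
  U : AddSubmonoid ℕ
  lab : ℕ → ℕ
  hd : 1 ≤ d
  hn : 1 ≤ n
  cop : Nat.Coprime n (d + 1)
  nU : n ∈ U
  labD : ∀ x, lab x ∈ D
  lab_le : ∀ x, lab x ≤ d
  lab0 : lab 0 = d
  labsurj : ∀ e ∈ D, ∃ x, (x ∈ U ∧ ¬ ∃ y ∈ U, x = y + n) ∧ lab x = e
  down : ∀ j η, 2 ≤ j → η ∈ U →
    Sm (fun x => ∃ z, (z ∈ U ∧ ¬ ∃ y ∈ U, z = y + n) ∧ x = z + (d - lab z) * n) j (η + n) →
    Sm (fun x => ∃ z, (z ∈ U ∧ ¬ ∃ y ∈ U, z = y + n) ∧ x = z + (d - lab z) * n) j η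
  high : ∀ j η, 2 ≤ j → (η ∈ U ∧ ¬ ∃ y ∈ U, η = y + n) → ∀ c < d,
    Sm (fun x => ∃ z, (z ∈ U ∧ ¬ ∃ y ∈ U, z = y + n) ∧ x = z + (d - lab z) * n) j (η + c * n)
  cop2 : ∃ z, (z ∈ U ∧ ¬ ∃ y ∈ U, z = y + n) ∧ Nat.Coprime z n

namespace Data
variable {D : Finset ℕ} (P : Data D)

/-- Apery elements -/
def Ap (z : ℕ) : Prop := z ∈ P.U ∧ ¬ ∃ y ∈ P.U, z = y + P.n
/-- excesses of generators -/
def Xi (x : ℕ) : Prop := ∃ z, P.Ap z ∧ x = z + (P.d - P.lab z) * P.n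

theorem mulU (a : ℕ) : a * P.n ∈ P.U := by
  simpa using P.U.nsmul_mem P.nU a

theorem Ap_le {z y a b : ℕ} (hz : P.Ap z) (hy : y ∈ P.U) (e : z + a * P.n = y + b * P.n) : b ≤ a := by
  by_contra hc
  push Not at hc
  obtain ⟨c, rfl⟩ := Nat.exists_eq_add_of_lt hc
  exact hz.2 ⟨y + c * P.n, P.U.add_mem hy (P.mulU c), by nlinarith⟩

theorem Ap_eq {z y a b : ℕ} (hz : P.Ap z) (hy : P.Ap y) (e : z + a * P.n = y + b * P.n) :
    a = b ∧ z = y := by
  have h : a = b := le_antisymm (P.Ap_le hy hz.1 e.symm) (P.Ap_le hz hy.1 e)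
  subst h
  exact ⟨rfl, by omega⟩

theorem XiU {x : ℕ} (h : P.Xi x) : x ∈ P.U := by
  obtain ⟨z, hz, rfl⟩ := h
  exact P.U.add_mem hz.1 (P.mulU _)

theorem SmU {j η : ℕ} (h : Sm P.Xi j η) : η ∈ P.U := by
  induction h with
  | zero => exact P.U.zero_mem
  | succ _ hx ih => exact P.U.add_mem ih (P.XiU hx)

theorem Ap0 : P.Ap 0 := ⟨P.U.zero_mem, fun ⟨y, _, h⟩ => by have := P.hn; omega⟩

theorem Xi0 : P.Xi 0 := ⟨0, P.Ap0, by simp [P.lab0]⟩

theorem Sm0 (j : ℕ) : Sm P.Xi j 0 := by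
  induction j with
  | zero => exact Sm.zero
  | succ j ih => exact ih.succ P.Xi0

/-- factorisation data -/
def F (x b j η : ℕ) : Prop :=
  Sm P.Xi j η ∧ x = b * ((P.d + 1) * P.n) + j * ((P.d + 1) * P.n + P.d * P.n) + (P.d + 1) * η

/-- x has a factorisation of length l -/
def Fac (x l : ℕ) : Prop := ∃ b j η, P.F x b j η ∧ l = b + j

theorem rel {x b j η b' j' η' : ℕ} (h : P.F x b j η) (h' : P.F x b' j' η') (hj : j ≤ j') :
    ∃ s, j' = j + (P.d + 1) * s ∧ η + (b + j) * P.n = η' + (b' + j' + s * P.d) * P.n := by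
  obtain ⟨i, rfl⟩ := Nat.exists_eq_add_of_le hj
  have e := h.2.symm.trans h'.2
  have hdv : (P.d + 1) ∣ i * P.n := by
    have : i * P.n * 1 + (P.d + 1) * (b * P.n + η + i * P.n) =
      (P.d + 1) * (b' * P.n + 3 * i * P.n + η') := by nlinarith
    have h2 : (P.d + 1) ∣ i * P.n * 1 + (P.d + 1) * (b * P.n + η + i * P.n) := ⟨_, this⟩
    simpa using (Nat.dvd_add_left (Dvd.intro _ rfl)).1 h2
  obtain ⟨s, rfl⟩ := P.cop.symm.dvd_of_dvd_mul_right hdv
  refine ⟨s, rfl, Nat.eq_of_mul_eq_mul_left (Nat.succ_pos P.d) ?_⟩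
  simp only [Nat.succ_eq_add_one]
  nlinarith

theorem max_len {x b j η l : ℕ} (h : P.F x b j η) (hj : j ≤ 1) (h' : P.Fac x l) : l ≤ b + j := by
  obtain ⟨b', j', η', h', rfl⟩ := h'
  have hd := P.hd
  have hn := P.hn
  rcases le_or_gt j' j with hle | hlt
  · obtain ⟨s, hs, e⟩ := P.rel h' h hle
    have hs0 : s = 0 := by
      by_contra hc
      have : 1 ≤ s := Nat.one_le_iff_ne_zero.2 hc
      nlinarith
    subst hs0
    simp only [mul_zero, add_zero, zero_mul] at hs e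
    subst hs
    rcases Nat.le_one_iff_eq_zero_or_eq_one.1 hj with rfl | rfl
    · rw [h.1.zero_iff, h'.1.zero_iff] at e
      nlinarith
    · obtain ⟨z, hz, rfl⟩ := h.1.one_iff
      obtain ⟨z', hz', rfl⟩ := h'.1.one_iff
      have := P.Ap_eq (a := P.d - P.lab z' + (b' + 1)) (b := P.d - P.lab z + (b + 1)) hz' hz
        (by nlinarith)
      obtain ⟨h1, rfl⟩ := this
      omega
  · obtain ⟨s, hs, e⟩ := P.rel h h' hlt.le
    have hs0 : 1 ≤ s := by
      by_contra hc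
      have : s = 0 := by omega
      subst this
      omega
    rcases Nat.le_one_iff_eq_zero_or_eq_one.1 hj with rfl | rfl
    · rw [h.1.zero_iff] at e
      by_contra hc
      push Not at hc
      nlinarith [Nat.zero_le (s * P.d * P.n), Nat.zero_le η']
    · obtain ⟨z, hz, rfl⟩ := h.1.one_iff
      have := P.Ap_le (a := P.d - P.lab z + (b + 1)) (b := b' + j' + s * P.d) hz (P.SmU h'.1)
        (by nlinarith)
      have h2 : P.d ≤ s * P.d := Nat.le_mul_of_pos_left _ hs0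
      omega

theorem top {x b j η l : ℕ} (h : P.F x b j η) (hη : P.Ap η) (hj : j < P.d + 3) (h' : P.Fac x l)
    (hl : b + j < l) : (j = P.d + 1 ∧ l = b + j + P.d) ∨ l = b + j + P.lab η := by
  obtain ⟨b', j', η', h', rfl⟩ := h'
  have hd := P.hd
  have hn := P.hn
  rcases le_or_gt j j' with hle | hlt
  · obtain ⟨s, hs, e⟩ := P.rel h h' hle
    have := P.Ap_le hη (P.SmU h'.1) e
    omega
  · obtain ⟨s, hs, e⟩ := P.rel h' h hlt.le
    have hs1 : s = 1 := by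
      rcases Nat.lt_trichotomy s 1 with h0 | h0 | h0
      · have : s = 0 := by omega
        subst this
        omega
      · exact h0
      · nlinarith
    subst hs1
    have hj' : j' ≤ 1 := by omega
    rcases Nat.le_one_iff_eq_zero_or_eq_one.1 hj' with rfl | rfl
    · left
      rw [h'.1.zero_iff] at e
      have := (P.Ap_eq P.Ap0 hη e).1
      omega
    · right
      obtain ⟨z, hz, rfl⟩ := h'.1.one_iff
      obtain ⟨h1, rfl⟩ := P.Ap_eq (a := P.d - P.lab z + (b' + 1)) (b := b + j + 1 * P.d) hz hη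
        (by nlinarith)
      have := P.lab_le z
      omega

theorem delta_sub (h1 : 1 ∈ D) {x k δ : ℕ} (hδ : 0 < δ) (hk : P.Fac x k) (hk' : P.Fac x (k + δ))
    (hno : ∀ j, k < j → j < k + δ → ¬ P.Fac x j) : δ ∈ D := by
  obtain ⟨b, j, η, h, rfl⟩ := hk
  have hd := P.hd
  have one : P.Fac x (b + j + 1) → δ ∈ D := fun hf => by
    by_cases hc : δ = 1
    · exact hc ▸ h1
    · exact absurd hf (hno _ (by omega) (by omega))
  by_cases hj : j ≤ 1
  · have := P.max_len h hj hk'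
    omega
  by_cases hη : P.Ap η
  · by_cases hj3 : j < P.d + 3
    · rcases P.top h hη hj3 hk' (by omega) with ⟨-, e⟩ | e
      · have : δ = P.lab 0 := by rw [P.lab0]; omega
        exact this ▸ P.labD 0
      · have : δ = P.lab η := by omega
        exact this ▸ P.labD η
    · obtain ⟨i, rfl⟩ : ∃ i, j = i + (P.d + 1) := ⟨j - (P.d + 1), by omega⟩
      obtain ⟨c, hc⟩ : ∃ c, P.d = c + 1 := ⟨P.d - 1, by omega⟩
      refine one ⟨b + P.d + 2, i, η + c * P.n, ⟨P.high i η (by omega) hη c (by omega), ?_⟩, by omega⟩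
      rw [h.2, hc]
      ring
  · have : ∃ y ∈ P.U, η = y + P.n := by
      by_contra hc
      exact hη ⟨P.SmU h.1, hc⟩
    obtain ⟨y, hy, rfl⟩ := this
    refine one ⟨b + 1, j, y, ⟨P.down j y (by omega) hy h.1, ?_⟩, by omega⟩
    rw [h.2]
    ring

theorem delta_sup {e : ℕ} (he : e ∈ D) : ∃ x k, P.Fac x k ∧ P.Fac x (k + e) ∧
    ∀ j, k < j → j < k + e → ¬ P.Fac x j := by
  obtain ⟨z, hz, rfl⟩ := P.labsurj e he
  have hd := P.hd
  have h0 : Sm P.Xi (P.d + 2) (z + 0 * P.n) := P.high (P.d + 2) z (by omega) hz 0 (by omega)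
  rw [zero_mul, add_zero] at h0
  have hF : P.F _ 0 (P.d + 2) z := ⟨h0, rfl⟩
  refine ⟨_, _, ⟨_, _, _, hF, rfl⟩, ⟨P.d + 1 + P.lab z, 1, _, ⟨Sm.one ⟨z, hz, rfl⟩, ?_⟩, by omega⟩,
    fun j h1 h2 hj => ?_⟩
  · obtain ⟨c, hc⟩ := Nat.exists_eq_add_of_le (P.lab_le z)
    have : P.d - P.lab z = c := by omega
    rw [this]
    generalize P.lab z = e at hc
    rw [hc]
    ring
  · rcases P.top hF hz (by omega) hj h1 with ⟨h, -⟩ | h <;> omega

/-- the generators -/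
def Gen (a : ℕ) : Prop :=
  a = (P.d + 1) * P.n ∨ ∃ ξ, P.Xi ξ ∧ a = (P.d + 1) * P.n + P.d * P.n + (P.d + 1) * ξ

theorem Fac_add {x l y k : ℕ} (h : P.Fac x l) (h' : P.Fac y k) : P.Fac (x + y) (l + k) := by
  obtain ⟨b, j, η, h, rfl⟩ := h
  obtain ⟨b', j', η', h', rfl⟩ := h'
  exact ⟨b + b', j + j', η + η', ⟨h.1.add h'.1, by rw [h.2, h'.2]; ring⟩, by ring⟩

theorem Fac_zero : P.Fac 0 0 := ⟨0, 0, 0, ⟨Sm.zero, by simp⟩, rfl⟩

theorem Gen_F {a : ℕ} (h : P.Gen a) : ∃ b j η, P.F a b j η ∧ 1 = b + j := by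
  rcases h with rfl | ⟨ξ, hξ, rfl⟩
  · exact ⟨1, 0, 0, ⟨Sm.zero, by simp⟩, rfl⟩
  · exact ⟨0, 1, ξ, ⟨Sm.one hξ, by simp⟩, rfl⟩

theorem Fac_succ {x l : ℕ} (h : P.Fac x (l + 1)) : ∃ a y, P.Gen a ∧ P.Fac y l ∧ x = a + y := by
  obtain ⟨b, j, η, ⟨h, rfl⟩, e⟩ := h
  cases h with
  | zero =>
    obtain rfl : b = l + 1 := by omega
    exact ⟨_, _, Or.inl rfl, ⟨l, 0, 0, ⟨Sm.zero, rfl⟩, rfl⟩, by ring⟩
  | succ h hx =>
    exact ⟨_, _, Or.inr ⟨_, hx, rfl⟩, ⟨b, _, _, ⟨h, rfl⟩, by omega⟩, by ring⟩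

theorem Fac_zero_len {x : ℕ} (h : P.Fac x 0) : x = 0 := by
  obtain ⟨b, j, η, ⟨h, rfl⟩, e⟩ := h
  obtain rfl : b = 0 := by omega
  obtain rfl : j = 0 := by omega
  simp [h.zero_iff]

theorem Fac_iff (x l : ℕ) : P.Fac x l ↔
    ∃ m : Multiset ℕ, (∀ a ∈ m, P.Gen a) ∧ m.sum = x ∧ Multiset.card m = l := by
  constructor
  · intro h
    induction l generalizing x with
    | zero => exact ⟨0, by simp, by simp [P.Fac_zero_len h], rfl⟩
    | succ l ih =>
      obtain ⟨a, y, ha, hy, rfl⟩ := P.Fac_succ h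
      obtain ⟨m, h1, h2, h3⟩ := ih y hy
      refine ⟨a ::ₘ m, fun c hc => ?_, by simp [h2], by simp [h3]⟩
      rcases Multiset.mem_cons.1 hc with rfl | hc
      · exact ha
      · exact h1 c hc
  · rintro ⟨m, h1, rfl, rfl⟩
    induction m using Multiset.induction_on with
    | empty => exact P.Fac_zero
    | cons a m ih =>
      have := P.Fac_add (P.Gen_F (h1 a (Multiset.mem_cons_self _ _)))
        (ih fun c hc => h1 c (Multiset.mem_cons_of_mem hc))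
      simpa [add_comm] using this

/-- the numerical semigroup -/
def S : AddSubmonoid ℕ where
  carrier := {x | ∃ l, P.Fac x l}
  zero_mem' := ⟨0, P.Fac_zero⟩
  add_mem' := fun ⟨_, h⟩ ⟨_, h'⟩ => ⟨_, P.Fac_add h h'⟩

theorem Gen_pos {a : ℕ} (h : P.Gen a) : a ≠ 0 := by
  have := P.hn
  rcases h with rfl | ⟨ξ, -, rfl⟩ <;> positivity

theorem atom_iff (a : ℕ) :
    (a ∈ P.S ∧ a ≠ 0 ∧ ∀ b ∈ P.S, ∀ c ∈ P.S, b + c = a → b = 0 ∨ c = 0) ↔ P.Gen a := by
  constructor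
  · rintro ⟨⟨l, hl⟩, h0, hirr⟩
    cases l with
    | zero => exact absurd (P.Fac_zero_len hl) h0
    | succ l =>
      obtain ⟨g, y, hg, hy, rfl⟩ := P.Fac_succ hl
      rcases hirr g ⟨1, P.Gen_F hg⟩ y ⟨l, hy⟩ rfl with h | h
      · exact absurd h (P.Gen_pos hg)
      · simpa [h] using hg
  · intro h
    refine ⟨⟨1, P.Gen_F h⟩, P.Gen_pos h, ?_⟩
    rintro b ⟨k, hk⟩ c ⟨l, hl⟩ rfl
    obtain ⟨b', j, η, hF, e⟩ := P.Gen_F h
    have := P.max_len hF (by omega) (P.Fac_add hk hl)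
    rcases Nat.eq_zero_or_pos k with rfl | hk0
    · exact Or.inl (P.Fac_zero_len hk)
    · obtain rfl : l = 0 := by omega
      exact Or.inr (P.Fac_zero_len hl)

theorem cofin : ((P.S : Set ℕ)ᶜ).Finite := by
  obtain ⟨z, hz, hc⟩ := P.cop2
  have hm : (P.d + 1) * P.n ∈ P.S := ⟨1, P.Gen_F (Or.inl rfl)⟩
  have hx : (P.d + 1) * P.n + P.d * P.n + (P.d + 1) * (z + (P.d - P.lab z) * P.n) ∈ P.S :=
    ⟨1, P.Gen_F (Or.inr ⟨_, ⟨z, hz, rfl⟩, rfl⟩)⟩
  have hcop : Nat.Coprime ((P.d + 1) * P.n)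
      ((P.d + 1) * P.n + P.d * P.n + (P.d + 1) * (z + (P.d - P.lab z) * P.n)) := by
    apply Nat.Coprime.mul_left
    · have : (P.d + 1) * P.n + P.d * P.n + (P.d + 1) * (z + (P.d - P.lab z) * P.n) =
        P.d * P.n + (P.d + 1) * (P.n + z + (P.d - P.lab z) * P.n) := by ring
      rw [this, Nat.coprime_add_mul_left_right]
      exact Nat.Coprime.mul_right (by simp) P.cop.symm
    · have : (P.d + 1) * P.n + P.d * P.n + (P.d + 1) * (z + (P.d - P.lab z) * P.n) =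
        (P.d + 1) * z + P.n * (P.d + 1 + P.d + (P.d + 1) * (P.d - P.lab z)) := by ring
      rw [this, Nat.coprime_add_mul_left_right]
      exact Nat.Coprime.mul_right P.cop hc.symm
  generalize (P.d + 1) * P.n + P.d * P.n + (P.d + 1) * (z + (P.d - P.lab z) * P.n) = x at hx hcop
  generalize (P.d + 1) * P.n = m at hm hcop
  refine (Set.finite_lt_nat (m.pred * x.pred)).subset fun y hy => ?_
  by_contra hc'
  obtain ⟨a, b, e⟩ := Nat.exists_add_mul_eq_of_gcd_dvd_of_mul_pred_le m x y (by simp [hcop])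
    (not_lt.1 hc')
  apply hy
  rw [← e]
  exact P.S.add_mem (by simpa using P.S.nsmul_mem hm a) (by simpa using P.S.nsmul_mem hx b)

end Data

end Pool.Agent.H.MP_9bbc25_al
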