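import Pool.Agent.H.MP_9bbc25_al.A

set_option autoImplicit false

namespace Pool.Agent.H.MP_9bbc25_al

/-- truncated distance to the multiples of 4R+1 -/
def ff (R ρ : ℕ) : ℕ := min ρ (min (4 * R + 1 - ρ) R)

theorem ff_le (R ρ : ℕ) : ff R ρ ≤ R := by unfold ff; omega

theorem ff_add (R a b : ℕ) : ff R ((a + b) % (4 * R + 1)) ≤ ff R (a % (4 * R + 1)) + ff R (b % (4 * R + 1)) := by
  have ha := Nat.mod_lt a (show 0 < 4 * R + 1 by omega)
  have hb := Nat.mod_lt b (show 0 < 4 * R + 1 by omega)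
  rw [Nat.add_mod]
  generalize a % (4 * R + 1) = x at *
  generalize b % (4 * R + 1) = y at *
  by_cases h : x + y < 4 * R + 1
  · rw [Nat.mod_eq_of_lt h]
    unfold ff
    omega
  · rw [Nat.mod_eq_sub_mod (by omega), Nat.mod_eq_of_lt (by omega)]
    unfold ff
    omega

theorem pattern (R θ y : ℕ) (hθ : θ < 4 * R + 1) (h1 : ff R θ + 3 ≤ y) (h2 : y ≤ 2 * R) :
    ∃ ρ σ c, 0 < ρ ∧ ρ < 4 * R + 1 ∧ 0 < σ ∧ σ < 4 * R + 1 ∧ c ≤ 1 ∧ ρ + σ = θ + c * (4 * R + 1) ∧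
      ff R ρ + ff R σ ≤ y ∧ y ≤ ff R ρ + ff R σ + 1 := by
  unfold ff at *
  by_cases h : θ ≤ 2 * R
  · by_cases h' : θ < R ∧ y + θ < 2 * R
    · exact ⟨θ + (y - θ) / 2, 4 * R + 1 - (y - θ) / 2, 1, by omega⟩
    · exact ⟨θ + (y - R), 4 * R + 1 - (y - R), 1, by omega⟩
  · by_cases h' : 4 * R + 1 - θ < R ∧ y + (4 * R + 1 - θ) < 2 * R
    · exact ⟨θ - (y - (4 * R + 1 - θ)) / 2, (y - (4 * R + 1 - θ)) / 2, 0, by omega⟩
    · exact ⟨θ - (y - R), y - R, 0, by omega⟩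

section main
variable (D : Finset ℕ) (d : ℕ)

/-- the auxiliary semigroup -/
def UU : AddSubmonoid ℕ where
  carrier := {x | (d + 1) * ff (4 * (d + 1)) (x % (4 * (4 * (d + 1)) + 1)) ≤ x / (4 * (4 * (d + 1)) + 1)}
  zero_mem' := by simp [ff]
  add_mem' := fun {a b} ha hb => by
    simp only [Set.mem_setOf_eq] at *
    have h1 := Nat.mul_le_mul_left (d + 1) (ff_add (4 * (d + 1)) a b)
    have h2 : a / (4 * (4 * (d + 1)) + 1) + b / (4 * (4 * (d + 1)) + 1) ≤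
      (a + b) / (4 * (4 * (d + 1)) + 1) := Nat.div_add_div_le_add_div
    rw [mul_add (d + 1)] at h1
    omega

theorem mem_UU {T ρ u : ℕ} (hT : T = 4 * (4 * (d + 1)) + 1) (hρ : ρ < T) :
    ρ + T * u ∈ UU d ↔ (d + 1) * ff (4 * (d + 1)) ρ ≤ u := by
  subst hT
  show (d + 1) * ff _ (_ % _) ≤ _ / _ ↔ _
  rw [Nat.add_mul_mod_self_left, Nat.mod_eq_of_lt hρ, Nat.add_mul_div_left _ _ (by omega),
    Nat.div_eq_of_lt hρ, zero_add]

theorem decomp (T : ℕ) (hT : 0 < T) (x : ℕ) : ∃ ρ u, ρ < T ∧ x = ρ + T * u :=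
  ⟨x % T, x / T, Nat.mod_lt _ hT, (Nat.mod_add_div x T).symm⟩

theorem decomp_inj {T ρ u σ v : ℕ} (hρ : ρ < T) (hσ : σ < T) (e : ρ + T * u = σ + T * v) :
    ρ = σ ∧ u = v := by
  have h1 := congrArg (· % T) e
  simp only [Nat.add_mul_mod_self_left, Nat.mod_eq_of_lt hρ, Nat.mod_eq_of_lt hσ] at h1
  subst h1
  exact ⟨rfl, Nat.eq_of_mul_eq_mul_left (by omega : 0 < T) (by omega)⟩

theorem ap_iff {T ρ u : ℕ} (hT : T = 4 * (4 * (d + 1)) + 1) (hρ : ρ < T) :
    (ρ + T * u ∈ UU d ∧ ¬ ∃ y ∈ UU d, ρ + T * u = y + T * (3 * (d + 1) + 1)) ↔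
      (d + 1) * ff (4 * (d + 1)) ρ ≤ u ∧ u < (d + 1) * ff (4 * (d + 1)) ρ + (3 * (d + 1) + 1) := by
  rw [mem_UU d hT hρ]
  refine and_congr_right fun h => ⟨fun h' => ?_, ?_⟩
  · by_contra hc
    obtain ⟨v, rfl⟩ : ∃ v, u = v + (3 * (d + 1) + 1) := ⟨u - (3 * (d + 1) + 1), by omega⟩
    exact h' ⟨ρ + T * v, (mem_UU d hT hρ).2 (by omega), by ring⟩
  · rintro h' ⟨y, hy, e⟩
    obtain ⟨σ, v, hσ, rfl⟩ := decomp T (by omega) y
    obtain ⟨rfl, rfl⟩ := decomp_inj (v := v + (3 * (d + 1) + 1)) hρ hσ (by rw [e]; ring)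
    have := (mem_UU d hT hρ).1 hy
    omega

open Classical in
/-- labels -/
noncomputable def lb (x : ℕ) : ℕ :=
  if h : ∃ e ∈ D, e < d ∧ x = (4 * (4 * (d + 1)) + 1) * (2 * e) then h.choose else d

theorem lb_cases (x : ℕ) : (lb D d x = d ∧ ¬ ∃ e ∈ D, e < d ∧ x = (4 * (4 * (d + 1)) + 1) * (2 * e)) ∨
    (lb D d x ∈ D ∧ lb D d x < d ∧ x = (4 * (4 * (d + 1)) + 1) * (2 * lb D d x)) := by
  unfold lb
  split_ifs with h
  · exact Or.inr h.choose_spec
  · exact Or.inl ⟨rfl, h⟩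

/-- excesses -/
def XX (x : ℕ) : Prop := ∃ z, (z ∈ UU d ∧ ¬ ∃ y ∈ UU d,
  z = y + (4 * (4 * (d + 1)) + 1) * (3 * (d + 1) + 1)) ∧
    x = z + (d - lb D d z) * ((4 * (4 * (d + 1)) + 1) * (3 * (d + 1) + 1))

theorem XX_normal (hD : ∀ e ∈ D, 0 < e) {T ρ u : ℕ} (hT : T = 4 * (4 * (d + 1)) + 1) (hρ : ρ < T)
    (h1 : (d + 1) * ff (4 * (d + 1)) ρ ≤ u)
    (h2 : u < (d + 1) * ff (4 * (d + 1)) ρ + (3 * (d + 1) + 1))
    (h3 : ρ ≠ 0 ∨ u = 0 ∨ u % 2 = 1 ∨ lb D d (ρ + T * u) = d) : XX D d (ρ + T * u) := by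
  have hl : lb D d (ρ + T * u) = d := by
    rcases lb_cases D d (ρ + T * u) with h | ⟨h4, h5, h6⟩
    · exact h.1
    · rw [← hT, ← zero_add (T * (2 * _))] at h6
      have := decomp_inj hρ (by omega) h6
      have := hD _ h4
      omega
  refine ⟨ρ + T * u, ?_, by simp [hl]⟩
  rw [← hT]
  exact (ap_iff d hT hρ).2 ⟨h1, h2⟩

theorem two_sum (hD : ∀ e ∈ D, 0 < e) {T x : ℕ} (hT : T = 4 * (4 * (d + 1)) + 1) (hx : x ∈ UU d)
    (hlt : x < T * (2 * ((d + 1) * (4 * (d + 1))) + 2)) : Sm (XX D d) 2 x := by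
  obtain ⟨θ, u, hθ, rfl⟩ := decomp T (by omega) x
  rw [mem_UU d hT hθ] at hx
  have hu : u < 2 * ((d + 1) * (4 * (d + 1))) + 2 := by
    by_contra hc
    have := Nat.mul_le_mul_left T (not_lt.1 hc)
    omega
  have f0 : ff (4 * (d + 1)) 0 = 0 := by simp [ff]
  have X0 : XX D d (0 + T * 0) := XX_normal D d hD hT (by omega) (by simp [f0]) (by simp [f0]) (by simp)
  by_cases hc : u < (d + 1) * ff (4 * (d + 1)) θ + (3 * (d + 1) + 1)
  · by_cases h3 : θ ≠ 0 ∨ u = 0 ∨ u % 2 = 1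
    · have := (Sm.one (XX_normal D d hD hT hθ hx hc (by tauto))).succ X0
      simpa using this
    · obtain rfl : θ = 0 := by tauto
      obtain ⟨v, rfl⟩ : ∃ v, u = v + 1 := ⟨u - 1, by omega⟩
      rw [f0] at hc
      have h1 : XX D d (0 + T * v) := XX_normal D d hD hT hθ (by simp [f0]) (by rw [f0]; omega)
        (by omega)
      have h2 : XX D d (0 + T * 1) := XX_normal D d hD hT hθ (by simp [f0]) (by rw [f0]; omega)
        (by omega)
      have := (Sm.one h1).succ h2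
      convert this using 1
      ring
  · obtain ⟨r, y, hr, e⟩ := decomp (d + 1) (by omega) (u - 1)
    have hy1 : ff (4 * (d + 1)) θ + 3 ≤ y := by
      by_contra h
      have := Nat.mul_le_mul_left (d + 1) (show y ≤ ff (4 * (d + 1)) θ + 2 by omega)
      rw [mul_add] at this
      omega
    have hy2 : y ≤ 2 * (4 * (d + 1)) := by
      by_contra h
      have := Nat.mul_le_mul_left (d + 1) (show 2 * (4 * (d + 1)) + 1 ≤ y by omega)
      have e2 : (d + 1) * (2 * (4 * (d + 1)) + 1) = 2 * ((d + 1) * (4 * (d + 1))) + (d + 1) := by ring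
      omega
    obtain ⟨ρ, σ, c, h1, h2, h3, h4, h5, h6, h7, h8⟩ := pattern (4 * (d + 1)) θ y (by omega) hy1 hy2
    rw [← hT] at h2 h4 h6
    have h9 := Nat.mul_le_mul_left (d + 1) h7
    have h10 := Nat.mul_le_mul_left (d + 1) h8
    simp only [mul_add, mul_one] at h9 h10
    obtain ⟨v, hv⟩ : ∃ v, u = v + (d + 1) * ff (4 * (d + 1)) σ + c :=
      ⟨u - ((d + 1) * ff (4 * (d + 1)) σ + c), by simp only [mul_add, mul_one]; omega⟩
    simp only [mul_add, mul_one] at hv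
    have k1 : XX D d (ρ + T * v) := XX_normal D d hD hT h2 (by simp only [mul_add, mul_one]; omega)
      (by simp only [mul_add, mul_one]; omega) (by omega)
    have k2 : XX D d (σ + T * ((d + 1) * ff (4 * (d + 1)) σ)) :=
      XX_normal D d hD hT h4 le_rfl (by omega) (by omega)
    have := (Sm.one k1).succ k2
    convert this using 1
    rw [hv]
    simp only [mul_add, mul_one]
    nlinarith

theorem XX_zero (hD : ∀ e ∈ D, 0 < e) : XX D d 0 := by
  have f0 : ff (4 * (d + 1)) 0 = 0 := by simp [ff]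
  simpa using XX_normal D d hD (u := 0) (ρ := 0) rfl (by omega) (by simp [f0]) (by simp [f0]) (by simp)

theorem low (hD : ∀ e ∈ D, 0 < e) {T : ℕ} (hT : T = 4 * (4 * (d + 1)) + 1) (j : ℕ) (hj : 2 ≤ j) :
    ∀ x ∈ UU d, x < j * (T * ((d + 1) * (4 * (d + 1)) + 1)) → Sm (XX D d) j x := by
  induction j, hj using Nat.le_induction with
  | base => exact fun x hx h => two_sum D d hD hT hx (by linarith)
  | succ j hj ih =>
    intro x hx h
    by_cases hc : x < j * (T * ((d + 1) * (4 * (d + 1)) + 1))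
    · simpa using (ih x hx hc).succ (XX_zero D d hD)
    · have fR : ff (4 * (d + 1)) (4 * (d + 1)) = 4 * (d + 1) := by unfold ff; omega
      have hz : XX D d (4 * (d + 1) + T * ((d + 1) * (4 * (d + 1)) + 1)) :=
        XX_normal D d hD hT (by omega) (by rw [fR]; omega) (by rw [fR]; omega) (by omega)
      have h2 := Nat.mul_le_mul_right (T * ((d + 1) * (4 * (d + 1)) + 1)) hj
      have hTK : T * ((d + 1) * (4 * (d + 1)) + 1) = T * ((d + 1) * (4 * (d + 1))) + T := by ring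
      obtain ⟨y, rfl⟩ : ∃ y, x = y + (4 * (d + 1) + T * ((d + 1) * (4 * (d + 1)) + 1)) :=
        ⟨x - (4 * (d + 1) + T * ((d + 1) * (4 * (d + 1)) + 1)), by omega⟩
      refine (ih y ?_ (by rw [add_mul j, one_mul] at h; omega)).succ hz
      obtain ⟨ρ, u, hρ, rfl⟩ := decomp T (by omega) y
      rw [mem_UU d hT hρ]
      refine (Nat.mul_le_mul_left _ (ff_le _ _)).trans ?_
      by_contra hu
      have := Nat.mul_le_mul_left T (show u + 1 ≤ (d + 1) * (4 * (d + 1)) by omega)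
      rw [mul_add T u] at this
      omega

theorem XX_cases {T x : ℕ} (hT : T = 4 * (4 * (d + 1)) + 1) (h : XX D d x) :
    x ≤ T * ((d + 1) * (4 * (d + 1)) + 1) ∨ ∃ ρ u, ρ < T ∧ ρ ≠ 0 ∧ x = ρ + T * u ∧
      (d + 1) * ff (4 * (d + 1)) ρ ≤ u ∧ u < (d + 1) * ff (4 * (d + 1)) ρ + (3 * (d + 1) + 1) := by
  obtain ⟨z, hz, rfl⟩ := h
  rw [← hT] at hz ⊢
  rcases lb_cases D d z with ⟨h, -⟩ | ⟨-, h1, h2⟩
  · rw [h, Nat.sub_self, zero_mul, add_zero]
    obtain ⟨ρ, u, hρ, rfl⟩ := decomp T (by omega) z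
    rw [ap_iff d hT hρ] at hz
    by_cases h0 : ρ = 0
    · left
      subst h0
      have f0 : ff (4 * (d + 1)) 0 = 0 := by simp [ff]
      rw [f0] at hz
      rw [zero_add]
      exact Nat.mul_le_mul_left _ (by nlinarith)
    · exact Or.inr ⟨ρ, u, hρ, h0, rfl, hz⟩
  · left
    rw [← hT] at h2
    generalize lb D d z = e at *
    obtain ⟨c, rfl⟩ := Nat.exists_eq_add_of_lt h1
    rw [h2, show e + c + 1 - e = c + 1 by omega, mul_left_comm (c + 1), ← mul_add]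
    exact Nat.mul_le_mul_left _ (by nlinarith)

theorem slack (hD : ∀ e ∈ D, 0 < e) {T : ℕ} (hT : T = 4 * (4 * (d + 1)) + 1) {j η : ℕ}
    (h : Sm (XX D d) j η) : ∀ t η', η = η' + T * t → j * (T * ((d + 1) * (4 * (d + 1)) + 1)) ≤ η' →
      Sm (XX D d) j η' := by
  induction h with
  | zero =>
    intro t η' e _
    obtain rfl : η' = 0 := by omega
    exact Sm.zero
  | @succ j η ξ h hx ih =>
    intro t η' e hle
    rw [add_mul, one_mul] at hle
    rcases XX_cases D d hT hx with h1 | ⟨ρ, u, hρ, h0, rfl, h2, h3⟩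
    · obtain ⟨y, rfl⟩ : ∃ y, η' = y + ξ := ⟨η' - ξ, by omega⟩
      exact (ih t y (by omega) (by omega)).succ hx
    · obtain ⟨s, rfl⟩ := Nat.exists_eq_add_of_le h2
      by_cases hs : t ≤ s
      · obtain ⟨r, rfl⟩ := Nat.exists_eq_add_of_le hs
        have k : XX D d (ρ + T * ((d + 1) * ff (4 * (d + 1)) ρ + r)) :=
          XX_normal D d hD hT hρ (by omega) (by omega) (Or.inl h0)
        convert h.succ k using 1
        simp only [mul_add T] at e ⊢
        omega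
      · obtain ⟨r, rfl⟩ := Nat.exists_eq_add_of_le (not_le.1 hs).le
        have k : XX D d (ρ + T * ((d + 1) * ff (4 * (d + 1)) ρ)) :=
          XX_normal D d hD hT hρ le_rfl (by omega) (Or.inl h0)
        have h4 := Nat.mul_le_mul_left T (Nat.mul_le_mul_left (d + 1) (ff_le (4 * (d + 1)) ρ))
        simp only [mul_add T, mul_one] at e hle ih
        obtain ⟨y, rfl⟩ : ∃ y, η' = y + (ρ + T * ((d + 1) * ff (4 * (d + 1)) ρ)) :=
          ⟨η' - (ρ + T * ((d + 1) * ff (4 * (d + 1)) ρ)), by omega⟩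
        exact (ih r y (by omega) (by omega)).succ k

/-- the data -/
noncomputable def data (hD : ∀ e ∈ D, 0 < e) (hd : d ∈ D) (hmax : ∀ e ∈ D, e ≤ d) : Data D where
  d := d
  n := (4 * (4 * (d + 1)) + 1) * (3 * (d + 1) + 1)
  U := UU d
  lab := lb D d
  hd := hD d hd
  hn := Nat.succ_le_of_lt (by positivity)
  cop := by
    have : (4 * (4 * (d + 1)) + 1) * (3 * (d + 1) + 1) = 1 + (d + 1) * (48 * (d + 1) + 19) := by ring
    rw [this, Nat.coprime_add_mul_left_left]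
    simp
  nU := by
    have := (mem_UU d (ρ := 0) (u := 3 * (d + 1) + 1) rfl (by omega)).2 (by simp [ff])
    simpa using this
  labD := fun x => by
    rcases lb_cases D d x with ⟨h, -⟩ | ⟨h, -⟩
    · rwa [h]
    · exact h
  lab_le := fun x => by
    rcases lb_cases D d x with ⟨h, -⟩ | ⟨-, h, -⟩ <;> omega
  lab0 := by
    rcases lb_cases D d 0 with ⟨h, -⟩ | ⟨h1, -, h⟩
    · exact h
    · have := hD _ h1
      have : 0 < (4 * (4 * (d + 1)) + 1) * (2 * lb D d 0) := by positivity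
      omega
  labsurj := fun e he => by
    have f0 : ff (4 * (d + 1)) 0 = 0 := by simp [ff]
    rcases (hmax e he).lt_or_eq with h | rfl
    · refine ⟨0 + (4 * (4 * (d + 1)) + 1) * (2 * e), (ap_iff d rfl (by omega)).2 (by rw [f0]; omega), ?_⟩
      rcases lb_cases D d (0 + (4 * (4 * (d + 1)) + 1) * (2 * e)) with ⟨-, h1⟩ | ⟨-, -, h1⟩
      · exact absurd ⟨e, he, h, zero_add _⟩ h1
      · rw [zero_add] at h1 ⊢
        have := Nat.eq_of_mul_eq_mul_left (by omega) h1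
        omega
    · refine ⟨0 + (4 * (4 * (e + 1)) + 1) * 1, (ap_iff e rfl (by omega)).2 (by rw [f0]; omega), ?_⟩
      rcases lb_cases D e (0 + (4 * (4 * (e + 1)) + 1) * 1) with ⟨h1, -⟩ | ⟨-, -, h1⟩
      · exact h1
      · rw [zero_add] at h1
        have := Nat.eq_of_mul_eq_mul_left (by omega) h1
        omega
  down := fun j η hj hη h => by
    by_cases hc : η < j * ((4 * (4 * (d + 1)) + 1) * ((d + 1) * (4 * (d + 1)) + 1))
    · exact low D d hD rfl j hj η hη hc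
    · exact slack D d hD rfl h _ _ rfl (not_lt.1 hc)
  high := fun j η hj hη c hc => by
    obtain ⟨ρ, u, hρ, rfl⟩ := decomp (4 * (4 * (d + 1)) + 1) (by omega) η
    have h1 := (ap_iff d rfl hρ).1 hη
    have h2 := Nat.mul_le_mul_left (d + 1) (ff_le (4 * (d + 1)) ρ)
    have e : ρ + (4 * (4 * (d + 1)) + 1) * u + c * ((4 * (4 * (d + 1)) + 1) * (3 * (d + 1) + 1)) =
      ρ + (4 * (4 * (d + 1)) + 1) * (u + c * (3 * (d + 1) + 1)) := by ring
    rw [e]
    refine low D d hD rfl j hj _ ((mem_UU d rfl hρ).2 (by omega)) ?_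
    have h3 : u + c * (3 * (d + 1) + 1) + 1 ≤ 2 * ((d + 1) * (4 * (d + 1)) + 1) := by nlinarith
    have h4 := Nat.mul_le_mul_left (4 * (4 * (d + 1)) + 1) h3
    have h5 := Nat.mul_le_mul_right ((4 * (4 * (d + 1)) + 1) * ((d + 1) * (4 * (d + 1)) + 1)) hj
    generalize 4 * (4 * (d + 1)) + 1 = T at *
    nlinarith
  cop2 := by
    have f1 : ff (4 * (d + 1)) 1 = 1 := by unfold ff; omega
    refine ⟨1 + (4 * (4 * (d + 1)) + 1) * (3 * (d + 1) + 1),
      (ap_iff d rfl (by omega)).2 (by rw [f1]; omega), by simp⟩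

end main

end Pool.Agent.H.MP_9bbc25_al
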